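import Pool.Agent.H26.IX.Bounds

/-!
# Lower bounds for the index in `F₂[X_1,…,X_n]/(X_1²,…,X_n²)`

Lower bounds for the index of EVERY tuple of forms of degree `d`.
-/

namespace Pool.Agent.Results.MP_82575a_al.IndexLower

/-- The ring `F₂[X_1,…,X_n]/(X_1²,…,X_n²)`. -/
abbrev B (n : ℕ) : Type :=
  MvPolynomial (Fin n) (ZMod 2) ⧸
    Ideal.span (Set.range fun i : Fin n =>
      (MvPolynomial.X i ^ 2 : MvPolynomial (Fin n) (ZMod 2)))

/-- The degree `k` part of `B n`: the classes of the homogeneous polynomials of degree `k`. -/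
def degPart (n k : ℕ) : Set (B n) :=
  (fun p : MvPolynomial (Fin n) (ZMod 2) => (Ideal.Quotient.mk _ p : B n)) ''
    {p | p.IsHomogeneous k}

/-- The index: the least `D` with `B_D` contained in the ideal generated by the tuple. -/
noncomputable def ind {n m : ℕ} (lam : Fin m → B n) : ℕ :=
  sInf {D | degPart n D ⊆ (Ideal.span (Set.range lam) : Set (B n))}

theorem result (d : ℕ) (hd : 1 ≤ d) :
    (∀ (n m : ℕ) (lam : Fin m → B n), (∀ i, lam i ∈ degPart n d) → ∀ z : ℝ, 0 ≤ z →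
      (1 + z) ^ n ≤ (1 + z ^ d) ^ m * ∑ j ∈ Finset.range (ind lam), (n.choose j : ℝ) * z ^ j) ∧
    (∀ (n : ℕ) (lam : Fin n → B n), (∀ i, lam i ∈ degPart n d) →
      (1 / 2 - (Real.log d + 27 / 20) / (2 * d)) * n ≤ ind lam ∧
      (d = 2 → 3 / 40 * (n : ℝ) ≤ ind lam)) := by
  refine ⟨fun n m lam h z hz => H26IX.master hd h hz, fun n lam h => ⟨H26IX.idx_ge hd h, ?_⟩⟩
  rintro rfl
  exact H26IX.idx_ge_two h

end Pool.Agent.Results.MP_82575a_al.IndexLower
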