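import Pool.Agent.H26.IX.Two

/-!
# An upper bound for the index of random `n`-tuples of forms of degree `d`

For almost all `n`-tuples of forms of degree `d` in `F₂[X_1,…,X_n]/(X_1²,…,X_n²)` the index is at
most `(1/2 - δ) n` with an explicit `δ = δ(d) > 0`.
-/

namespace Pool.Agent.Results.MP_82575a_al.IndexUpper

open Filter

/-- The ring `F₂[X_1,…,X_n]/(X_1²,…,X_n²)`. -/
abbrev B (n : ℕ) : Type :=
  MvPolynomial (Fin n) (ZMod 2) ⧸
    Ideal.span (Set.range fun i : Fin n =>
      (MvPolynomial.X i ^ 2 : MvPolynomial (Fin n) (ZMod 2)))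

/-- The degree `k` part of `B n`: the classes of the homogeneous polynomials of degree `k`. -/
def degPart (n k : ℕ) : Set (B n) :=
  (fun p : MvPolynomial (Fin n) (ZMod 2) => (Ideal.Quotient.mk _ p : B n)) ''
    {p | p.IsHomogeneous k}

/-- The ordered `n`-tuples of nonzero elements of the degree `d` part of `B n`. -/
def nTuples (n d : ℕ) : Set (Fin n → B n) := {lam | ∀ i, lam i ∈ degPart n d ∧ lam i ≠ 0}

/-- The index: the least `D` with `B_D` contained in the ideal generated by the tuple. -/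
noncomputable def ind {n m : ℕ} (lam : Fin m → B n) : ℕ :=
  sInf {D | degPart n D ⊆ (Ideal.span (Set.range lam) : Set (B n))}

/-- The fraction of the `n`-tuples of nonzero forms of degree `d` with the property `P`. -/
noncomputable def fraction (n d : ℕ) (P : (Fin n → B n) → Prop) : ℝ :=
  (({lam ∈ nTuples n d | P lam} : Set (Fin n → B n)).ncard : ℝ) / ((nTuples n d).ncard : ℝ)

theorem result :
    (∀ d : ℕ, 1 ≤ d → ∃ c : ℝ, 0 < c ∧ ∀ᶠ n : ℕ in atTop,
      1 - Real.exp (-c * n) ≤
        fraction n d fun lam => (ind lam : ℝ) ≤ (1 / 2 - (1 / 2) ^ d / 32) * n) ∧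
    ∃ c : ℝ, 0 < c ∧ ∀ᶠ n : ℕ in atTop,
      1 - Real.exp (-c * n) ≤ fraction n 2 fun lam => (ind lam : ℝ) ≤ 463 / 1000 * n := by
  constructor
  · intro d hd
    obtain ⟨c, hc, h⟩ := H26IX.ind_half hd
    refine ⟨c, hc, ?_⟩
    filter_upwards [h] with n hn
    exact hn.2
  · obtain ⟨c, hc, h⟩ := H26IX.ind_two
    refine ⟨c, hc, ?_⟩
    filter_upwards [h] with n hn
    have h1 : (1 - 537 / 1000 : ℝ) = 463 / 1000 := by norm_num
    have h2 := hn.2
    rw [h1] at h2
    exact h2

end Pool.Agent.Results.MP_82575a_al.IndexUpper
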