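import Pool.Agent.H64.SRL.Final

/-!
# Random `n`-tuples of forms of degree `d` are semi-regular up to degree `c n`

Let `B n = F₂[X_1,…,X_n]/(X_1²,…,X_n²)`. We prove that for every `d ≥ 2` there is `c > 0` such
that the fraction of the `n`-tuples of nonzero homogeneous elements of degree `d` of `B n` whose
index is larger than `D = ⌊c n⌋` and which satisfy the semi-regularity condition for
all `μ` with `deg μ + d ≤ D` tends to `1`.
-/

namespace Pool.Agent.Results.MP_82575a_al.LinearRange

open Filter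

/-- The ring `F₂[X_1,…,X_n]/(X_1²,…,X_n²)`. -/
abbrev B (n : ℕ) : Type :=
  MvPolynomial (Fin n) (ZMod 2) ⧸
    Ideal.span (Set.range fun i : Fin n =>
      (MvPolynomial.X i ^ 2 : MvPolynomial (Fin n) (ZMod 2)))

/-- The degree `k` part of `B n`: the classes of the homogeneous polynomials of degree `k`. -/
def degPart (n k : ℕ) : Set (B n) :=
  (fun p : MvPolynomial (Fin n) (ZMod 2) => (Ideal.Quotient.mk _ p : B n)) ''
    {p | p.IsHomogeneous k}

/-- The ordered `n`-tuples of nonzero elements of the degree `d` part of `B n`. -/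
def nTuples (n d : ℕ) : Set (Fin n → B n) := {lam | ∀ i, lam i ∈ degPart n d ∧ lam i ≠ 0}

/-- The index: the least `D` with `B_D` contained in the ideal generated by the tuple. -/
noncomputable def ind {n : ℕ} (lam : Fin n → B n) : ℕ :=
  sInf {D | degPart n D ⊆ (Ideal.span (Set.range lam) : Set (B n))}

/-- The semi-regularity condition for all homogeneous `μ` with `deg μ + d ≤ D`. -/
def SemiRegularUpTo {n : ℕ} (d D : ℕ) (lam : Fin n → B n) : Prop :=
  ∀ (i : Fin n) (k : ℕ) (μ : B n), μ ∈ degPart n k → k + d ≤ D →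
    μ * lam i ∈ Ideal.span (lam '' {j | j < i}) → μ ∈ Ideal.span (lam '' {j | j ≤ i})

theorem result (d : ℕ) (hd : 2 ≤ d) :
    ∃ c : ℝ, 0 < c ∧
      Tendsto (fun n : ℕ =>
        (({lam ∈ nTuples n d | ⌊c * (n : ℝ)⌋₊ < ind lam ∧
            SemiRegularUpTo d ⌊c * (n : ℝ)⌋₊ lam} :
              Set (Fin n → B n)).ncard : ℝ) / ((nTuples n d).ncard : ℝ))
        atTop (nhds 1) := by
  obtain ⟨c1, hc1, h1⟩ := H64SRL.srl_tendsto hd
  obtain ⟨c2, hc2, h2⟩ := H64SRL.index_lin hd
  refine ⟨min c1 c2, lt_min hc1 hc2, ?_⟩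
  have hc1' : min c1 c2 ≤ c1 := min_le_left _ _
  have hc2' : min c1 c2 ≤ c2 := min_le_right _ _
  have hc0 : 0 < min c1 c2 := lt_min hc1 hc2
  refine (h1 (min c1 c2) hc1').congr' ?_
  filter_upwards [eventually_ge_atTop 1] with n hn
  have hn1 : (1 : ℝ) ≤ n := by exact_mod_cast hn
  have hset : ({lam ∈ nTuples n d | ⌊min c1 c2 * (n : ℝ)⌋₊ < ind lam ∧
      SemiRegularUpTo d ⌊min c1 c2 * (n : ℝ)⌋₊ lam} : Set (Fin n → B n)) =
      {lam ∈ H67SR.tup n n d | H67SR.RegBL d n ⌊min c1 c2 * (n : ℝ)⌋₊ lam} := by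
    ext lam
    constructor
    · rintro ⟨h3, _, h5⟩
      exact ⟨h3, fun i k ν _ hk hν => h5 i k ν hν hk⟩
    · rintro ⟨h3, h4⟩
      refine ⟨h3, ?_, fun i k ν hν hk => h4 i k ν (by omega) hk hν⟩
      have hne : {D | degPart n D ⊆ (Ideal.span (Set.range lam) : Set (B n))}.Nonempty := by
        refine ⟨n + 1, ?_⟩
        intro x hx
        have hx' := (H67SR.SqA.mem_part_iff (n + 1) x).1 hx
        have h0 : H67SR.SqA.iso n x = 0 := by
          apply H67SR.SqA.ext
          intro T
          by_contra hne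
          have h4 := (hx' T hne).2
          have h5 : T.card ≤ n := by
            simpa using Finset.card_le_univ T
          have h6 : T.card = n + 1 := by exact_mod_cast h4
          omega
        have h1 : x = 0 := by
          rw [← map_zero (H67SR.SqA.iso n)] at h0
          exact (H67SR.SqA.iso n).injective h0
        rw [h1]
        exact Submodule.zero_mem _
      by_contra hlt
      have hle : ind lam ≤ ⌊min c1 c2 * (n : ℝ)⌋₊ := not_lt.1 hlt
      have hmem := Nat.sInf_mem hne
      have hfl : ((⌊min c1 c2 * (n : ℝ)⌋₊ : ℕ) : ℝ) ≤ min c1 c2 * n :=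
        Nat.floor_le (by positivity)
      have hle' : ((ind lam : ℕ) : ℝ) ≤ c2 * n := by
        have h5 : ((ind lam : ℕ) : ℝ) ≤ ((⌊min c1 c2 * (n : ℝ)⌋₊ : ℕ) : ℝ) := by
          exact_mod_cast hle
        exact h5.trans (hfl.trans (mul_le_mul_of_nonneg_right hc2' (by linarith)))
      exact h2 n hn (ind lam) hle' lam h3 hmem
  rw [hset]
  rfl

end Pool.Agent.Results.MP_82575a_al.LinearRange
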