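import Pool.Agent.H26.QX.FinC
import Pool.Agent.H26.QX.FinD
import Pool.Agent.H26.IX.Two

/-!
# The semi-regularity condition for subfamilies of random `n`-tuples of quadratic forms

For almost all `n`-tuples of quadratic forms in `F₂[X_1,…,X_n]/(X_1²,…,X_n²)` the semi-regularity
condition holds over every subfamily of `j` members in all degrees up to `n/2 - 3 √n - 2 j`, and
in all the degrees that the definition of semi-regularity asks for if `55 j ≤ n`.
-/

namespace Pool.Agent.Results.MP_82575a_al.QuadraticSubfamilies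

open Filter

/-- The ring `F₂[X_1,…,X_n]/(X_1²,…,X_n²)`. -/
abbrev B (n : ℕ) : Type :=
  MvPolynomial (Fin n) (ZMod 2) ⧸
    Ideal.span (Set.range fun i : Fin n =>
      (MvPolynomial.X i ^ 2 : MvPolynomial (Fin n) (ZMod 2)))

/-- The degree `k` part of `B n`: the classes of the homogeneous polynomials of degree `k`. -/
def degPart (n k : ℕ) : Set (B n) :=
  (fun p : MvPolynomial (Fin n) (ZMod 2) => (Ideal.Quotient.mk _ p : B n)) ''
    {p | p.IsHomogeneous k}

/-- The ordered `n`-tuples of nonzero elements of the degree `2` part of `B n`. -/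
def nTuples (n : ℕ) : Set (Fin n → B n) := {lam | ∀ i, lam i ∈ degPart n 2 ∧ lam i ≠ 0}

/-- The index: the least `D` with `B_D` contained in the ideal generated by the tuple. -/
noncomputable def ind {n : ℕ} (lam : Fin n → B n) : ℕ :=
  sInf {D | degPart n D ⊆ (Ideal.span (Set.range lam) : Set (B n))}

/-- The condition of semi-regularity for the member `i` over the subfamily `J`, in degree `s`. -/
def RegularAt {n : ℕ} (lam : Fin n → B n) (J : Finset (Fin n)) (i : Fin n) (s : ℕ) : Prop :=
  ∀ μ ∈ degPart n s, μ * lam i ∈ Ideal.span (lam '' (J : Set (Fin n))) →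
    μ ∈ Ideal.span (lam '' (insert i (J : Set (Fin n))))

/-- The fraction of the `n`-tuples of nonzero quadratic forms with the property `P`. -/
noncomputable def fraction (n : ℕ) (P : (Fin n → B n) → Prop) : ℝ :=
  (({lam ∈ nTuples n | P lam} : Set (Fin n → B n)).ncard : ℝ) / ((nTuples n).ncard : ℝ)

theorem result :
    (∀ n : ℕ, 2 ≤ n →
      1 - 2 * (n : ℝ) / 2 ^ n ≤ fraction n fun lam =>
        ∀ (J : Finset (Fin n)) (i : Fin n) (s : ℕ), i ∉ J →
          (s : ℝ) + 2 * J.card ≤ n / 2 - 3 * Real.sqrt n → RegularAt lam J i s) ∧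
    ∃ c : ℝ, 0 < c ∧ ∀ᶠ n : ℕ in atTop,
      1 - Real.exp (-c * n) ≤ fraction n fun lam =>
        ∀ (J : Finset (Fin n)) (i : Fin n) (s : ℕ), i ∉ J →
          55 * J.card ≤ n → s + 2 < ind lam → RegularAt lam J i s := by
  constructor
  · intro n hn
    exact (H26QX.subA' hn).2
  · obtain ⟨c, hc, h⟩ := H26QX.subB_of (p := 537 / 1000) (q := 55) (by norm_num) (by norm_num)
      H26IX.ind_two
    refine ⟨c, hc, ?_⟩
    filter_upwards [h] with n hn
    exact hn.2

end Pool.Agent.Results.MP_82575a_al.QuadraticSubfamilies
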